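import Pool.Agent.MP_9f65ab_al.cor.Main

/-!
Regulator chains of every finite length among the groups `G(A_1, ..., A_n)`, the kernels of the sum
map on a finite direct sum of rank-one groups.
-/

set_option autoImplicit false

namespace Pool.Agent.Results.MP_9f65ab_al.CorankOne

open Pool.Agent.MP_9f65ab_al

theorem result (N : ℕ) (hN : 2 ≤ N) : ∃ (ι : Type) (_ : Fintype ι) (A : ι → AddSubgroup ℚ),
    Fintype.card ι = 3 * N ∧ (∀ i, A i ≠ ⊥) ∧ IsButler (kerSum A) ∧
      (∀ r < N, reg^[r + 1] (kerSum A) < reg^[r] (kerSum A)) ∧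
      reg^[N + 1] (kerSum A) = reg^[N] (kerSum A) := by
  obtain ⟨M, rfl⟩ := Nat.exists_eq_add_of_le' hN
  refine ⟨Cor.Vx M, inferInstance, Cor.AA (Cor.gg M 0), by simp; omega, fun i e => ?_, ?_⟩
  · exact one_ne_zero (AddSubgroup.mem_bot.1 (e ▸ Cor.one_mem_AA i))
  · rw [Cor.kerSum_AA]
    exact ⟨Cor.butler, Cor.chain M⟩

end Pool.Agent.Results.MP_9f65ab_al.CorankOne
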