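import Pool.Agent.MP_9f65ab_al.Five

/-!
The least rank of a Butler group whose regulator is not its own regulator is five, and in rank five
regulator chains of every finite length occur, already among the subgroups of finite index of one
group.
-/

set_option autoImplicit false

namespace Pool.Agent.Results.MP_9f65ab_al.SharpRank

open Pool.Agent.MP_9f65ab_al

theorem result :
    (∀ (V : Type) [AddCommGroup V] [Module ℚ V] (G : AddSubgroup V), IsButler G → rank G ≤ 4 →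
      (∃ A, IsReg G A) ∧ (∃ A, IsReg (reg G) A) ∧ reg (reg G) = reg G) ∧
    ∃ H : AddSubgroup (ℚ × (Fin 4 → ℚ)), IsButler H ∧ rank H = 5 ∧ ∀ N : ℕ, ∃ G ≤ H,
      (∃ m : ℕ, m ≠ 0 ∧ ∀ x ∈ H, m • x ∈ G) ∧ IsButler G ∧ rank G = 5 ∧
      (∀ n < N, reg^[n + 1] G < reg^[n] G) ∧ reg^[N + 1] G = reg^[N] G := by
  refine ⟨fun V _ _ G h hr => ⟨?_, ?_, h.reg_reg hr⟩, five⟩
  · obtain ⟨C, h1, h2⟩ := h.ch Bd.refl
    exact ⟨_, Bd.refl.isReg.2 ⟨C, h1, h2, rfl⟩⟩
  · obtain ⟨C, h1, h2⟩ := h.ch h.bd_reg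
    exact ⟨_, h.bd_reg.isReg.2 ⟨C, h1, h2, rfl⟩⟩

end Pool.Agent.Results.MP_9f65ab_al.SharpRank
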