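import Pool.Agent.MP_9f65ab_al.Six

/-!
The posets `P` such that every Butler group whose critical typeset embeds in `P`
has a regulator that is its own regulator.
-/

set_option autoImplicit false

namespace Pool.Agent.Results.MP_9f65ab_al.Typesets

open Pool.Agent.MP_9f65ab_al

theorem result (P : Type) [PartialOrder P] :
    (∀ (V : Type) [AddCommGroup V] [Module ℚ V] (G : AddSubgroup V), IsButler G →
      (∃ e : (Nat.Primes → ℕ∞) → P, ∀ σ τ, soc G σ ≠ sharp G σ → soc G τ ≠ sharp G τ →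
        (TLe σ τ ↔ e σ ≤ e τ)) →
      (∃ A, IsReg G A) ∧ (∃ A, IsReg (reg G) A) ∧ reg (reg G) = reg G) ↔
    ∀ t s₁ s₂ r₁ r₂ : P, t < s₁ → t < s₂ → IncompRel (· ≤ ·) s₁ s₂ → IncompRel (· ≤ ·) t r₁ →
      IncompRel (· ≤ ·) t r₂ → IncompRel (· ≤ ·) r₁ r₂ → r₁ ≤ s₁ := by
  simp only [crit_iff]
  refine ⟨fun h => by_contra fun hP => ?_, fun hP V _ _ G h ⟨e, he⟩ =>
    ⟨?_, ?_, h.reg_reg_of hP e he⟩⟩
  · obtain ⟨G, e, h1, h2, h3⟩ := Six.exists_group (P := P) hP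
    exact h2 (h _ G h1 ⟨e, h3⟩).2.2
  · obtain ⟨C, h1, h2⟩ := h.ch Bd.refl
    exact ⟨_, Bd.refl.isReg.2 ⟨C, h1, h2, rfl⟩⟩
  · obtain ⟨C, h1, h2⟩ := h.ch h.bd_reg
    exact ⟨_, h.bd_reg.isReg.2 ⟨C, h1, h2, rfl⟩⟩

end Pool.Agent.Results.MP_9f65ab_al.Typesets
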